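import Pool.Agent.DeligneH3.ArtinFinal

/-!
# Deligne's period conjecture: twists by Artin motives and abelian twists over number fields

The objects are the systems of realisations `Motive F` of `Pool/Agent/DeligneH3/MotiveDefs.lean`
(Betti and de Rham realisations with the comparison isomorphism and the Hodge filtration,
`v`-adic Galois representations for all finite places `v` of `F`).

* `M.DeligneUnit pl s₀` : `α^+` of `M(s₀)` is bijective, the value `L(M, s₀)` of the
  meromorphically continued Euler product exists and is a unit of `F ⊗ ℂ`, and it lies in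
  `c^+(M, s₀) F`.
* `T : Layer` : a finite Galois extension `K / ℚ` with group `T.G`, embedded in `Qbar`;
  `M.artinTwist cx T ρ` : the twist of `M` by the Artin motive attached to `ρ : G → GL_n(F)`;
  `M.inducedTwist cx T H χ` : the twist by `Ind_H^G χ`, that is the twist by `χ` of the base change
  of `M` to `K^H`, regarded over `ℚ` by restriction of scalars.
-/

namespace Pool.Agent.DeligneH3.Kept.ArtinTwists

open Pool.Agent.DeligneH3

/-- Let `K / ℚ` be a finite Galois extension with group `G`, let `F` contain a root of unity whose
order is the exponent of `G`, and let `s₀` be an integer. If Deligne's formula with invertible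
`L`-value holds at `s₀` for `M ⊗ Ind_H^G χ`, for all hyperelementary subgroups `H` of `G` and all
characters `χ : H → Fˣ`, then it holds at `s₀` for `M ⊗ ρ` for all representations
`ρ : G → GL_n(F)`. -/
theorem result (F : Type) [Field F] [NumberField F] (M : Motive F) (cx : ComplexPlace)
    (pl : ∀ p : Nat.Primes, Place p) (T : Layer) (ζ : F)
    (hζ : IsPrimitiveRoot ζ (Monoid.exponent T.G)) (s₀ : ℤ)
    (hyp : ∀ (H : Subgroup T.G) (χ : H →* F), IsHyperelementary H →
      (M.inducedTwist cx T H χ).DeligneUnit pl s₀)
    (n : ℕ) (ρ : T.G →* Matrix (Fin n) (Fin n) F) : (M.artinTwist cx T ρ).DeligneUnit pl s₀ :=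
  deligneUnit_artinTwist ρ hζ hyp

end Pool.Agent.DeligneH3.Kept.ArtinTwists
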