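import Pool.Agent.DeligneH3.Final

/-!
# Deligne's period conjecture: descent from fixed fields of hyperelementary subgroups

The objects are the systems of realisations `Motive F` of `Pool/Agent/DeligneH3/Motive.lean`
(Betti and de Rham realisations with the comparison isomorphism and the Hodge filtration,
`v`-adic Galois representations for all finite places `v` of `F`).

* `M.DeligneUnit pl s₀` : `α^+` of `M(s₀)` is bijective, the value `L(M, s₀)` of the
  meromorphically continued Euler product exists and is a unit of `F ⊗ ℂ`, and it lies in
  `c^+(M, s₀) F`.
* `T : Layer` : a finite Galois extension `K / ℚ` with group `T.G`, embedded in `Qbar`;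
  `M.baseChange cx T H` : the base change of `M` to the fixed field `K^H`, regarded over `ℚ` by
  restriction of scalars, i.e. `M ⊗ h⁰(Spec K^H)`.
-/

namespace Pool.Agent.Results.MP_cd171c_nt.BaseChangeDescent

open Pool.Agent.DeligneH3

/-- Let `K / ℚ` be a finite Galois extension with group `G`, and let `s₀` be an integer. If
Deligne's formula with invertible `L`-value holds at `s₀` for the base changes of `M` to `K^H` for
all hyperelementary subgroups `H` of `G`, then it holds at `s₀` for `M` and for the base changes
of `M` to all subfields of `K`. -/
theorem result (F : Type) [Field F] [NumberField F] (M : Motive F) (cx : ComplexPlace)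
    (pl : ∀ p : Nat.Primes, Place p) (T : Layer) (s₀ : ℤ)
    (hyp : ∀ H : Subgroup T.G, IsHyperelementary H → (M.baseChange cx T H).DeligneUnit pl s₀) :
    M.DeligneUnit pl s₀ ∧ ∀ J : Subgroup T.G, (M.baseChange cx T J).DeligneUnit pl s₀ :=
  ⟨deligneUnit_descent hyp, fun J => deligneUnit_baseChange hyp J⟩

end Pool.Agent.Results.MP_cd171c_nt.BaseChangeDescent
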