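import Pool.Agent.DeligneH3.NormL2

/-!
# Deligne's period conjecture and norm relations in the coefficient field

The objects are the systems of realisations `Motive F` of `Pool/Agent/DeligneH3/MotiveDefs.lean`
(Betti and de Rham realisations with the comparison isomorphism and the Hodge filtration,
`v`-adic Galois representations for all finite places `v` of `F`). `M.DeligneUnit pl s₀` is
Deligne's formula `L(M, s₀) ∈ F c^+(M, s₀)` with an invertible `L`-value, and
`M.DeligneUnitRestr E pl s₀` is the same for the motive `M|E` with coefficients in the subfield `E`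
obtained from `M` by restriction of coefficients.
-/

namespace Pool.Agent.DeligneH3.Kept.NormRelations

open Pool.Agent.DeligneH3

/-- Let `F` be a number field such that `1` is a `ℤ[Aut F]`-linear combination of the norm elements
of the nontrivial subgroups of `Aut F`. Then, for every motive `M` over `ℚ` with coefficients in
`F` and every integer `s₀`, Deligne's formula holds for `M` at `s₀` if and only if it holds for the
restrictions of coefficients `M|E` for all proper subfields `E` of `F` such that `F / E` is Galois.
The hypothesis on `Aut F` is satisfied if `Aut F` contains two subgroups which are partitioned into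
`n₁` respectively `n₂` nontrivial subgroups, with `n₁ - 1` and `n₂ - 1` coprime (for instance the
Klein four-group, `n = 3`, and the symmetric group `S₃`, `n = 4`). -/
theorem result :
    (∀ (F : Type) [Field F] [NumberField F], HasNormRelation (F ≃ₐ[ℚ] F) →
      ∀ (M : Motive F) (pl : ∀ p : Nat.Primes, Place p) (s₀ : ℤ),
        M.DeligneUnit pl s₀ ↔ ∀ E : IntermediateField ℚ F, E ≠ ⊤ → IsGalois E F →
          M.DeligneUnitRestr E pl s₀) ∧
    (∀ (Γ : Type) [Group Γ] [Finite Γ] (Δ₁ Δ₂ : Subgroup Γ) (n₁ n₂ : ℕ)
      (H₁ : Fin n₁ → Subgroup Γ) (H₂ : Fin n₂ → Subgroup Γ), IsPartition Δ₁ H₁ →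
        IsPartition Δ₂ H₂ → IsCoprime ((n₁ : ℤ) - 1) ((n₂ : ℤ) - 1) → HasNormRelation Γ) :=
  ⟨fun _ _ _ hrel M pl s₀ => deligneUnit_iff_restr hrel M pl s₀,
    fun _ _ _ _ _ _ _ _ _ h₁ h₂ hco => hasNormRelation_of_partitions h₁ h₂ hco⟩

end Pool.Agent.DeligneH3.Kept.NormRelations
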